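import Pool.Agent.Y83.NP.Tz

/-! Trapezoidal pairs do not generate the polynomial ring. -/

set_option autoImplicit false

namespace Pool.Agent.Q96.TZ

open MvPolynomial Pool.Agent.W443.J5 Pool.Agent.W443.J6
open Pool.Agent.H938R2.JC hiding dh

/-- the Jacobian matrix of a pair with nonzero constant bracket -/
theorem det_unit {F G : MvPolynomial (Fin 2) ℂ} {c : ℂ} (hc0 : c ≠ 0)
    (hc : pderiv 0 F * pderiv 1 G - pderiv 1 F * pderiv 0 G = C c) :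
    IsUnit (Matrix.det (Pool.Agent.H922R2.jac ![F, G])) := by
  rw [Matrix.det_fin_two]
  have h6 : (Pool.Agent.H922R2.jac ![F, G]) 0 0 * (Pool.Agent.H922R2.jac ![F, G]) 1 1 -
      (Pool.Agent.H922R2.jac ![F, G]) 0 1 * (Pool.Agent.H922R2.jac ![F, G]) 1 0 =
      pderiv 0 F * pderiv 1 G - pderiv 1 F * pderiv 0 G := by
    simp only [Pool.Agent.H922R2.jac, Matrix.of_apply, Matrix.cons_val_zero,
      Matrix.cons_val_one]
  rw [h6, hc]
  exact (isUnit_iff_ne_zero.2 hc0).map C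

/-- a trapezoidal pair with nonzero constant bracket does not generate the polynomial ring -/
theorem not_gen (a b m n : ℕ) (hm : 0 < m) (hn : 0 < n) (ham : a ∣ m) (han : a ∣ n)
    (hab : Nat.gcd a b = 1) (ha : 2 ≤ a) (hb : 2 ≤ b)
    (F G : MvPolynomial (Fin 2) ℂ)
    (h1 : convexHull ℝ (insert ((0:ℝ), (0:ℝ))
        ((fun d : Fin 2 →₀ ℕ => ((d 0 : ℝ), (d 1 : ℝ))) '' (↑F.support : Set (Fin 2 →₀ ℕ))))
        = {p : ℝ × ℝ | 0 ≤ p.2 ∧ p.2 ≤ (n : ℝ) ∧ 0 ≤ p.1 ∧ p.1 ≤ (m : ℝ) + (n : ℝ) - p.2})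
    (h4 : convexHull ℝ (insert ((0:ℝ), (0:ℝ))
        ((fun d : Fin 2 →₀ ℕ => ((d 0 : ℝ), (d 1 : ℝ))) '' (↑G.support : Set (Fin 2 →₀ ℕ))))
        = {p : ℝ × ℝ | 0 ≤ p.2 ∧ p.2 ≤ ((b * n / a : ℕ) : ℝ) ∧ 0 ≤ p.1 ∧
            p.1 ≤ ((b * m / a : ℕ) : ℝ) + ((b * n / a : ℕ) : ℝ) - p.2})
    {c : ℂ} (hc0 : c ≠ 0) (hc : pderiv 0 F * pderiv 1 G - pderiv 1 F * pderiv 0 G = C c)
    (F' : Fin 2 → MvPolynomial (Fin 2) ℂ) (hF' : ∀ i, aeval ![F, G] (F' i) = X i) : False := by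
  obtain ⟨p, rfl⟩ := ham
  obtain ⟨q, rfl⟩ := han
  have ha0 : 0 < a := by omega
  have hp : 0 < p := Nat.pos_of_ne_zero (by rintro rfl; simp at hm)
  have hq : 0 < q := Nat.pos_of_ne_zero (by rintro rfl; simp at hn)
  have e1 : b * (a * q) / a = b * q := by
    have : b * (a * q) = b * q * a := by ring
    rw [this, Nat.mul_div_cancel _ ha0]
  have e2 : b * (a * p) / a = b * p := by
    have : b * (a * p) = b * p * a := by ring
    rw [this, Nat.mul_div_cancel _ ha0]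
  rw [e1, e2] at h4
  obtain ⟨f1, f2⟩ := Pool.Agent.TH207.Tz.hull (Nat.mul_pos ha0 hq) h1
  obtain ⟨g1, g2⟩ := Pool.Agent.TH207.Tz.hull (Nat.mul_pos (by omega) hq) h4
  obtain ⟨⟨-, hbad⟩, -⟩ := Pool.Agent.Y83.NP.data ha hb hab hp hq hc0 hc f1 f2 g1 g2
  apply hbad
  have htop : Algebra.adjoin ℂ ({F, G} : Set (MvPolynomial (Fin 2) ℂ)) = ⊤ := by
    rw [eq_top_iff, ← MvPolynomial.adjoin_range_X]
    apply Algebra.adjoin_le
    rintro _ ⟨i, rfl⟩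
    have hr : Set.range ![F, G] = {F, G} := by
      ext x
      simp only [Set.mem_range, Fin.exists_fin_two, Set.mem_insert_iff, Set.mem_singleton_iff,
        Matrix.cons_val_zero, Matrix.cons_val_one]
      rw [eq_comm (a := F), eq_comm (a := G)]
    rw [← hr, Algebra.adjoin_range_eq_range_aeval]
    exact ⟨F' i, hF' i⟩
  unfold Good
  have h2 : Algebra.adjoin ℂ ({sw F, sw G} : Set (MvPolynomial (Fin 2) ℂ)) =
      (Algebra.adjoin ℂ ({F, G} : Set (MvPolynomial (Fin 2) ℂ))).map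
        (sw : MvPolynomial (Fin 2) ℂ ≃ₐ[ℂ] MvPolynomial (Fin 2) ℂ).toAlgHom := by
    rw [AlgHom.map_adjoin, Set.image_pair]
    rfl
  rw [h2, htop, Algebra.map_top, AlgHom.range_eq_top]
  exact (sw : MvPolynomial (Fin 2) ℂ ≃ₐ[ℂ] MvPolynomial (Fin 2) ℂ).surjective

end Pool.Agent.Q96.TZ
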